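import Mathlib
import Pool.Agent.Helper12_WBX.Stmts

/-!
# Squad WBX, module UND: subformulas of the unfolding of a gate are unfoldings of earlier gates
-/

set_option autoImplicit false

namespace Pool.Agent.WBX.H20

open Pool.Agent.Helper78_ACIT Pool.Agent.WBX

theorem unf_fuel (G : List Gate) (hG : ∀ (i : ℕ) (g : Gate), G[i]? = some g → g.RefsBelow i) :
    ∀ j m : ℕ, j < m → unf G m j = unf G (j + 1) j := by
  intro j
  induction j using Nat.strong_induction_on with
  | _ j ih =>
    intro m hm
    obtain ⟨m, rfl⟩ : ∃ m', m = m' + 1 := ⟨m - 1, by omega⟩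
    have hg := hG j
    simp only [unf]
    cases hj : G[j]? with
    | none => rfl
    | some g =>
      have h1 := hg g hj
      cases g with
      | zero => rfl
      | one => rfl
      | var v => rfl
      | add a b =>
        obtain ⟨ha, hb⟩ := h1
        simp only
        rw [ih a ha m (by omega), ih a ha j ha, ih b hb m (by omega), ih b hb j hb]
      | sub a b =>
        obtain ⟨ha, hb⟩ := h1
        simp only
        rw [ih a ha m (by omega), ih a ha j ha, ih b hb m (by omega), ih b hb j hb]
      | mul a b =>
        obtain ⟨ha, hb⟩ := h1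
        simp only
        rw [ih a ha m (by omega), ih a ha j ha, ih b hb m (by omega), ih b hb j hb]

theorem child_unf (G : List Gate) (hG : ∀ (i : ℕ) (g : Gate), G[i]? = some g → g.RefsBelow i)
    (j : ℕ) (d : Bool) (g : Fm) (h : (unf G (j + 1) j).child d = some g) :
    ∃ i, i < j ∧ g = unf G (i + 1) i := by
  have hg := hG j
  simp only [unf] at h
  cases hj : G[j]? with
  | none => rw [hj] at h; simp [Fm.child] at h
  | some g' =>
    have h1 := hg g' hj
    rw [hj] at h
    cases g' with
    | zero => simp [Fm.child] at h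
    | one => simp [Fm.child] at h
    | var v => simp [Fm.child] at h
    | add a b =>
      obtain ⟨ha, hb⟩ := h1
      simp only [Fm.child, Option.some.injEq] at h
      cases d with
      | true => exact ⟨b, hb, by rw [← h]; simpa using unf_fuel G hG b j hb⟩
      | false => exact ⟨a, ha, by rw [← h]; simpa using unf_fuel G hG a j ha⟩
    | sub a b =>
      obtain ⟨ha, hb⟩ := h1
      simp only [Fm.child, Option.some.injEq] at h
      cases d with
      | true => exact ⟨b, hb, by rw [← h]; simpa using unf_fuel G hG b j hb⟩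
      | false => exact ⟨a, ha, by rw [← h]; simpa using unf_fuel G hG a j ha⟩
    | mul a b =>
      obtain ⟨ha, hb⟩ := h1
      simp only [Fm.child, Option.some.injEq] at h
      cases d with
      | true => exact ⟨b, hb, by rw [← h]; simpa using unf_fuel G hG b j hb⟩
      | false => exact ⟨a, ha, by rw [← h]; simpa using unf_fuel G hG a j ha⟩

theorem desc_unf (G : List Gate) (hG : ∀ (i : ℕ) (g : Gate), G[i]? = some g → g.RefsBelow i) :
    ∀ (ξ : List Bool) (j : ℕ) (g : Fm), (unf G (j + 1) j).desc ξ = some g →
      ∃ i, i ≤ j ∧ (ξ ≠ [] → i < j) ∧ g = unf G (i + 1) i := by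
  intro ξ
  induction ξ with
  | nil =>
    intro j g h
    simp only [Fm.desc, Option.some.injEq] at h
    exact ⟨j, le_rfl, fun h => absurd rfl h, h.symm⟩
  | cons d ξ ih =>
    intro j g h
    simp only [Fm.desc, Option.bind_eq_some_iff] at h
    obtain ⟨c, hc, h⟩ := h
    obtain ⟨i, hi, rfl⟩ := child_unf G hG j d c hc
    obtain ⟨i', hi', -, e⟩ := ih i g h
    exact ⟨i', by omega, fun _ => by omega, e⟩

theorem und : UndStmt := by
  intro G hG j _ ξ g hξ h
  obtain ⟨i, -, h1, h2⟩ := desc_unf G hG ξ j g h
  exact ⟨i, h1 hξ, h2⟩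

end Pool.Agent.WBX.H20
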